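import Pool.Agent.Helper15.T4.Stmts

/-! Module SUMX of t4_mods: the weighted sum over the pairings is a Gaussian integral. -/

set_option autoImplicit false

namespace Pool.Agent.Helper42.T4

open Finset MeasureTheory Filter Topology Pool.Agent.Helper15.T4

theorem int_one (k : ℕ) :
    Integrable (fun x : ℝ => (1 + |x|) ^ k * Real.exp (-(x ^ 2) / 2)) := by
  have h1 : ∀ j : ℕ, Integrable (fun x : ℝ => |x| ^ j * Real.exp (-(x ^ 2) / 2)) := by
    intro j
    have h := integrable_rpow_mul_exp_neg_mul_sq (b := 1 / 2) (by norm_num) (s := (j : ℝ))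
      (by have := Nat.cast_nonneg (α := ℝ) j; linarith)
    have h2 := h.norm
    refine h2.congr (Filter.Eventually.of_forall fun x => ?_)
    simp only [norm_mul, Real.norm_eq_abs, Real.rpow_natCast, abs_pow, Real.abs_exp]
    congr 2
    ring
  have h2 : (fun x : ℝ => (1 + |x|) ^ k * Real.exp (-(x ^ 2) / 2)) =
      fun x => ∑ j ∈ range (k + 1), (k.choose j : ℝ) * (|x| ^ j * Real.exp (-(x ^ 2) / 2)) := by
    funext x
    rw [add_comm, add_pow, Finset.sum_mul]
    refine Finset.sum_congr rfl fun j _ => ?_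
    rw [one_pow]
    ring
  rw [h2]
  exact integrable_finsetSum _ fun j _ => (h1 j).const_mul _

theorem abs_le_prod {ι : Type} [Fintype ι] (x : ι → ℝ) (j : ι) : |x j| ≤ ∏ i, (1 + |x i|) := by
  classical
  have h1 : 1 + |x j| ≤ ∏ i, (1 + |x i|) := by
    rw [← Finset.mul_prod_erase univ (fun i => 1 + |x i|) (Finset.mem_univ j)]
    refine le_mul_of_one_le_right (by positivity) ?_
    have h2 : ∏ _i ∈ univ.erase j, (1 : ℝ) ≤ ∏ i ∈ univ.erase j, (1 + |x i|) := by
      refine Finset.prod_le_prod (fun _ _ => zero_le_one) fun i _ => ?_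
      have := abs_nonneg (x i)
      linarith
    simpa using h2
  linarith

/-- products of linear forms are integrable against the Gaussian -/
theorem int_prod {H ι : Type} [Fintype ι] (s : Finset H) (ℓ : H → ι → ℂ) :
    Integrable (fun x : ι → ℝ => (∏ h ∈ s, ∑ i, ℓ h i * (x i : ℂ)) *
      ((Real.exp (-(nsq x) / 2) : ℝ) : ℂ)) := by
  classical
  set C : ℝ := ∏ h ∈ s, ∑ i, ‖ℓ h i‖ with hC
  have hdom : Integrable (fun x : ι → ℝ => C * ∏ i, ((1 + |x i|) ^ s.card *
      Real.exp (-(x i ^ 2) / 2))) :=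
    (Integrable.fintype_prod (f := fun _ : ι => fun y : ℝ => (1 + |y|) ^ s.card *
      Real.exp (-(y ^ 2) / 2)) (fun _ => int_one _)).const_mul C
  refine hdom.mono' ?_ ?_
  · refine Continuous.aestronglyMeasurable ?_
    unfold nsq
    fun_prop
  · refine Filter.Eventually.of_forall fun x => ?_
    rw [norm_mul, norm_prod]
    have h1 : ∀ h ∈ s, ‖∑ i, ℓ h i * (x i : ℂ)‖ ≤ (∑ i, ‖ℓ h i‖) * ∏ i, (1 + |x i|) := by
      intro h _
      refine le_trans (norm_sum_le _ _) ?_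
      rw [Finset.sum_mul]
      refine Finset.sum_le_sum fun i _ => ?_
      rw [norm_mul]
      refine mul_le_mul_of_nonneg_left ?_ (norm_nonneg _)
      rw [Complex.norm_real, Real.norm_eq_abs]
      exact abs_le_prod x i
    have h2 : ∏ h ∈ s, ‖∑ i, ℓ h i * (x i : ℂ)‖ ≤ C * (∏ i, (1 + |x i|)) ^ s.card := by
      refine le_trans (Finset.prod_le_prod (fun _ _ => norm_nonneg _) h1) ?_
      rw [Finset.prod_mul_distrib, Finset.prod_const]
    have h3 : ‖((Real.exp (-(nsq x) / 2) : ℝ) : ℂ)‖ = ∏ i, Real.exp (-(x i ^ 2) / 2) := by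
      rw [Complex.norm_real, Real.norm_eq_abs, Real.abs_exp, ← Real.exp_sum]
      congr 1
      unfold nsq
      rw [← Finset.sum_neg_distrib, Finset.sum_div]
    rw [h3, Finset.prod_mul_distrib, Finset.prod_pow]
    calc (∏ h ∈ s, ‖∑ i, ℓ h i * (x i : ℂ)‖) * ∏ i, Real.exp (-(x i ^ 2) / 2)
        ≤ (C * (∏ i, (1 + |x i|)) ^ s.card) * ∏ i, Real.exp (-(x i ^ 2) / 2) :=
          mul_le_mul_of_nonneg_right h2 (Finset.prod_nonneg fun _ _ => (Real.exp_pos _).le)
      _ = _ := by ring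

theorem pairC_map {H L ι : Type} [Fintype ι] (S : L → ι → ℂ) (σ : H → L) (e : Sym2 H) :
    pairC S (e.map σ) = pairC (fun h => S (σ h)) e := by
  induction e using Sym2.ind with
  | _ a b => rfl

theorem SUMX (h1 : ST_WICK) (h2 : ST_EXTM) : ST_SUMX := by
  classical
  intro L ι _ _ m n F hF
  have key : ∀ σ : HE n → L,
      ∑ M ∈ (PM (univ : Finset (HE n))).filter (fun M => F ⊆ M), ∏ e ∈ M, pairC m.S (e.map σ) =
      (∏ e ∈ F, pairC m.S (e.map σ)) * GI (fun x => ∏ h ∈ (cov F)ᶜ, m.l (σ h) x) := by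
    intro σ
    simp_rw [pairC_map]
    have ha := h2 (HE n) F (pairC (fun h => m.S (σ h))) hF
    rw [h1 (HE n) ι (cov F)ᶜ (fun h => m.S (σ h))] at ha
    unfold Mdl.l
    convert ha using 1
  have hL : ∑ M ∈ (PM (univ : Finset (HE n))).filter (fun M => F ⊆ M), m.X M =
      ∑ σ : HE n → L, (∏ v, (m.w (σ (v, 0)) (σ (v, 1)) (σ (v, 2)) : ℂ)) *
        ((∏ e ∈ F, pairC m.S (e.map σ)) * GI (fun x => ∏ h ∈ (cov F)ᶜ, m.l (σ h) x)) := by
    unfold Mdl.X
    rw [Finset.sum_comm]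
    refine Finset.sum_congr (by congr!) fun σ _ => ?_
    rw [← key σ, Finset.mul_sum]
  rw [hL]
  unfold GI
  have hR : (fun x : ι → ℝ => m.Psi F x * ((Real.exp (-(nsq x) / 2) : ℝ) : ℂ)) =
      fun x => ∑ σ : HE n → L, ((∏ v, (m.w (σ (v, 0)) (σ (v, 1)) (σ (v, 2)) : ℂ)) *
        (∏ e ∈ F, pairC m.S (e.map σ))) * ((∏ h ∈ (cov F)ᶜ, m.l (σ h) x) *
          ((Real.exp (-(nsq x) / 2) : ℝ) : ℂ)) := by
    funext x
    unfold Mdl.Psi
    rw [Finset.sum_mul]
    refine Finset.sum_congr (by congr!) fun σ _ => ?_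
    have : (∏ h ∈ (cov F)ᶜ, m.l (σ h) x) = ∏ h ∈ (cov F)ᶜ, m.l (σ h) x := rfl
    rw [mul_assoc]
  rw [hR, integral_finsetSum]
  · rw [Finset.mul_sum]
    refine Finset.sum_congr rfl fun σ _ => ?_
    rw [integral_const_mul]
    ring
  · intro σ _
    exact (int_prod (cov F)ᶜ (fun h => m.S (σ h))).const_mul _

end Pool.Agent.Helper42.T4
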