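import Pool.Agent.Helper15.T4.Stmts

/-! Module XC of t4_mods: the models m0, m1, m2 count the total colourings. -/

set_option autoImplicit false

namespace Pool.Agent.Helper42.T4

open Finset MeasureTheory Filter Topology Pool.Agent.Helper15.T4

theorem sum_S1 (a b : L1) :
    ∑ i, S1 a i * S1 b i = if a.1 = b.1 ∧ a.2 ≠ b.2 then 1 else 0 := by
  have hs : ((Real.sqrt 2 : ℝ) : ℂ) ^ 2 = 2 := by
    rw [← Complex.ofReal_pow, Real.sq_sqrt (by norm_num)]
    norm_num
  obtain ⟨a1, a2⟩ := a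
  obtain ⟨b1, b2⟩ := b
  rw [Fintype.sum_prod_type]
  unfold S1
  by_cases h1 : a1 = b1
  · subst h1
    rw [Finset.sum_eq_single a1]
    · by_cases h2 : a2 = b2
      · subst h2
        rw [if_neg (by simp)]
        simp only [if_true]
        rw [Fin.sum_univ_three]
        fin_cases a2 <;> simp <;> linear_combination (1 / 3 : ℂ) * hs + (2 / 3 : ℂ) * Complex.I_sq
      · rw [if_pos ⟨rfl, h2⟩]
        simp only [if_true]
        rw [Fin.sum_univ_three]
        fin_cases a2 <;> fin_cases b2 <;> simp at h2 ⊢ <;>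
          linear_combination (1 / 3 : ℂ) * hs + (-1 / 3 : ℂ) * Complex.I_sq
    · intro d _ hd
      simp [Ne.symm hd]
    · intro h
      exact absurd (Finset.mem_univ _) h
  · rw [if_neg (by simp [h1])]
    refine Finset.sum_eq_zero fun d _ => Finset.sum_eq_zero fun j _ => ?_
    by_cases h2 : a1 = d
    · have h3 : ¬ b1 = d := fun h3 => h1 (h2.trans h3.symm)
      simp [h3]
    · simp [h2]

open Classical in
theorem pairC_S1 (e : Sym2 L1) : pairC S1 e = if Cmp e then 1 else 0 := by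
  induction e using Sym2.ind with
  | _ a b =>
    show ∑ i, S1 a i * S1 b i = _
    rw [sum_S1]
    by_cases h : a.1 = b.1 ∧ a.2 ≠ b.2
    · rw [if_pos h, if_pos (show Cmp s(a, b) from h)]
    · rw [if_neg h, if_neg (show ¬ Cmp s(a, b) from h)]

theorem XC : ST_XC := by
  classical
  intro n M
  have h0 : m0.X M = 1 := by
    unfold Mdl.X
    rw [Fintype.sum_unique]
    have hp : ∀ e : Sym2 Unit, pairC m0.S e = 1 := by
      intro e
      induction e using Sym2.ind with
      | _ a b =>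
        show ∑ _i : Unit, (1 : ℂ) * 1 = 1
        simp
    rw [Finset.prod_eq_one, Finset.prod_eq_one]
    · simp
    · intro e _
      exact hp _
    · intro v _
      simp [m0]
  have h1 : m1.X M = (Xc M : ℂ) := by
    unfold Mdl.X Xc
    rw [Finset.card_filter, Nat.cast_sum]
    refine Finset.sum_congr (by congr!) fun σ _ => ?_
    have ha : (∏ v, (m1.w (σ (v, 0)) (σ (v, 1)) (σ (v, 2)) : ℂ)) =
        if (∀ v, w1 (σ (v, 0)) (σ (v, 1)) (σ (v, 2)) = 1) then 1 else 0 := by
      have hw : ∀ v, (m1.w (σ (v, 0)) (σ (v, 1)) (σ (v, 2)) : ℂ) =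
          if w1 (σ (v, 0)) (σ (v, 1)) (σ (v, 2)) = 1 then 1 else 0 := by
        intro v
        show ((w1 _ _ _ : ℝ) : ℂ) = _
        unfold w1
        split_ifs with h1 h2 h2
        · simp
        · exact absurd rfl h2
        · norm_num at h2
        · simp
      simp_rw [hw]
      rw [Finset.prod_boole]
      simp
    have hb : ∏ e ∈ M, pairC m1.S (e.map σ) =
        if (∀ e ∈ M, Cmp (e.map σ)) then 1 else 0 := by
      have hb' : ∏ e ∈ M, pairC m1.S (e.map σ) =
          ∏ e ∈ M, if Cmp (e.map σ) then (1 : ℂ) else 0 :=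
        Finset.prod_congr rfl fun e _ => pairC_S1 _
      rw [hb', Finset.prod_boole]
      congr
    rw [ha, hb]
    by_cases hc : (∀ v, w1 (σ (v, 0)) (σ (v, 1)) (σ (v, 2)) = 1)
    · by_cases hd : (∀ e ∈ M, Cmp (e.map σ))
      · rw [if_pos hc, if_pos hd, if_pos ⟨hc, hd⟩]
        simp
      · rw [if_pos hc, if_neg hd, mul_zero]
        symm
        rw [if_neg (fun h => hd h.2)]
        simp
    · rw [if_neg hc, zero_mul]
      symm
      rw [if_neg (fun h => hc h.1)]
      simp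
  refine ⟨h0, h1, ?_⟩
  rw [← h1]
  have hp : ∀ (σ : HE n → L1 × L1) (e : Sym2 (HE n)), pairC m2.S (e.map σ) =
      pairC m1.S (e.map (fun h => (σ h).1)) * pairC m1.S (e.map (fun h => (σ h).2)) := by
    intro σ e
    induction e using Sym2.ind with
    | _ a b =>
      show ∑ i : L1 × L1, (S1 (σ a).1 i.1 * S1 (σ a).2 i.2) * (S1 (σ b).1 i.1 * S1 (σ b).2 i.2) =
        (∑ i, S1 (σ a).1 i * S1 (σ b).1 i) * ∑ i, S1 (σ a).2 i * S1 (σ b).2 i
      rw [Fintype.sum_prod_type, Finset.sum_mul_sum]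
      refine Finset.sum_congr rfl fun i _ => Finset.sum_congr rfl fun j _ => ?_
      ring
  unfold Mdl.X
  rw [sq, Finset.sum_mul_sum, ← Finset.sum_product']
  refine Finset.sum_equiv (Equiv.arrowProdEquivProdArrow (HE n) (fun _ => L1) (fun _ => L1))
    (by simp) ?_
  intro σ _
  simp only [Equiv.arrowProdEquivProdArrow]
  have hw : ∀ v, (m2.w (σ (v, 0)) (σ (v, 1)) (σ (v, 2)) : ℂ) =
      (m1.w (σ (v, 0)).1 (σ (v, 1)).1 (σ (v, 2)).1 : ℂ) *
        (m1.w (σ (v, 0)).2 (σ (v, 1)).2 (σ (v, 2)).2 : ℂ) := by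
    intro v
    show (((w1 _ _ _ * w1 _ _ _ : ℝ)) : ℂ) = _
    push_cast
    rfl
  simp_rw [hw, hp]
  rw [Finset.prod_mul_distrib, Finset.prod_mul_distrib]
  show _ = (∏ v, (m1.w (σ (v, 0)).1 (σ (v, 1)).1 (σ (v, 2)).1 : ℂ)) *
    (∏ e ∈ M, pairC m1.S (e.map (fun h => (σ h).1))) *
    ((∏ v, (m1.w (σ (v, 0)).2 (σ (v, 1)).2 (σ (v, 2)).2 : ℂ)) *
    (∏ e ∈ M, pairC m1.S (e.map (fun h => (σ h).2))))
  ring

end Pool.Agent.Helper42.T4
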